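import Pool.Agent.Q169.PackEx

/-!
# `MP_e888d6_gt`: a negative answer

In `M = ℝ⁶` with its standard symplectic form there is a closed connected submanifold `K` of
dimension `4 > 3`, whose normal bundle has a nowhere vanishing section, which is not coisotropic
(in fact it is coisotropic at no point of a dense subset of `K`) and all of whose packings are
countable.

The definitions (`Phase`, `omega`, `IsHamDiffeo`, `IsSubmanifold`, `tangentSpace`,
`IsCoisotropicAt`, `IsCoisotropic`, `HasNonvanishingNormalSection`, `IsPacking`,
`AdmitsUncountablePacking`) are in `Pool/Agent/Q169/PackDefs.lean`.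
-/

set_option autoImplicit false

namespace Pool.Agent.Results.MP_e888d6_gt.TorusObstruction

open Q169.Pack

theorem result : ∃ K : Set (Phase 3),
    IsCompact K ∧ IsConnected K ∧ IsSubmanifold K 4 ∧ HasNonvanishingNormalSection K ∧
    ¬ IsCoisotropic K ∧ K ⊆ closure {z ∈ K | ¬ IsCoisotropicAt K z} ∧
    ¬ AdmitsUncountablePacking K := by
  refine ⟨exK, isCompact_exK, isConnected_exK, isSubmanifold_exK, normalSection_exK, ?_,
    dense_not_coisotropic, ?_⟩
  · intro h
    obtain ⟨z, hz⟩ := isConnected_exK.nonempty
    have h1 := dense_not_coisotropic hz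
    have h2 : {z ∈ exK | ¬ IsCoisotropicAt exK z} = ∅ := by
      refine Set.eq_empty_of_forall_notMem fun w hw => hw.2 (h w hw.1)
    rw [h2, closure_empty] at h1
    exact h1
  · rintro ⟨P, hP, hc⟩
    exact hc (exK_packing hP)

end Pool.Agent.Results.MP_e888d6_gt.TorusObstruction
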